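import Mathlib

/-!
# OCS: the algebra of planks whose direction turns

`/team-store/K_S6_OCS_helper88.md`, section 5. `S a` is the slope of the plank at the time `t a`,
`L a` the slope of `S` at fine scales, `E a` the direction of the fan. The mates say
`S b - S a = -(t b - t a) (L a + L b)`, the near pairs `S a' - S a = (t a' - t a) L a`; together
they give `L = 0`.
-/

set_option autoImplicit false

namespace Pool.OCS

/-- (D): a vector which is almost annihilated by `(1, E₀)` and `(1, E₁)` is small. -/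
theorem two_dir {E₀ E₁ κ ε x y : ℝ} (hκ : 0 < κ) (hE : κ ≤ |E₀ - E₁|) (hE₀ : |E₀| ≤ 1)
    (h0 : |x + y * E₀| ≤ ε) (h1 : |x + y * E₁| ≤ ε) : |x| ≤ ε + 2 * ε / κ ∧ |y| ≤ 2 * ε / κ := by
  have h2 : |y| * |E₀ - E₁| ≤ 2 * ε := by
    rw [← abs_mul]
    have : y * (E₀ - E₁) = (x + y * E₀) - (x + y * E₁) := by ring
    rw [this]
    exact (abs_sub _ _).trans (by linarith)
  have h3 : |y| ≤ 2 * ε / κ := by
    rw [le_div_iff₀ hκ]
    exact (mul_le_mul_of_nonneg_left hE (abs_nonneg y)).trans h2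
  refine ⟨?_, h3⟩
  have h4 : x = (x + y * E₀) - y * E₀ := by ring
  have h5 : |y * E₀| ≤ 2 * ε / κ := by
    rw [abs_mul]
    have := mul_le_mul h3 hE₀ (abs_nonneg _) ((abs_nonneg y).trans h3)
    linarith
  rw [h4]
  exact (abs_sub _ _).trans (add_le_add h0 h5)

/-- The algebra of one component. -/
theorem alg {S0 S1 S2 S3 L0 L1 L2 L3 t0 t1 t2 t3 ε ε₁ M : ℝ}
    (h02 : |S2 - S0 + (t2 - t0) * (L0 + L2)| ≤ ε) (h03 : |S3 - S0 + (t3 - t0) * (L0 + L3)| ≤ ε)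
    (h12 : |S2 - S1 + (t2 - t1) * (L1 + L2)| ≤ ε) (h13 : |S3 - S1 + (t3 - t1) * (L1 + L3)| ≤ ε)
    (h23 : |S3 - S2 + (t3 - t2) * (L2 + L3)| ≤ ε)
    (hn : |S1 - S0 - (t1 - t0) * L0| ≤ ε₁) (hL2 : |L2| ≤ M) (hL3 : |L3| ≤ M)
    (ht1 : |t1 - t0| ≤ 1) (ht2 : |t2 - t0| ≤ 1) (ht3 : |t3 - t2| ≤ 1) :
    |L0| * (3 * |t1 - t0| * |t3 - t2|) ≤ 2 * M * (t1 - t0) ^ 2 + 17 * ε + ε₁ := by
  obtain ⟨r02, hr02⟩ : ∃ r, r = S2 - S0 + (t2 - t0) * (L0 + L2) := ⟨_, rfl⟩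
  obtain ⟨r03, hr03⟩ : ∃ r, r = S3 - S0 + (t3 - t0) * (L0 + L3) := ⟨_, rfl⟩
  obtain ⟨r12, hr12⟩ : ∃ r, r = S2 - S1 + (t2 - t1) * (L1 + L2) := ⟨_, rfl⟩
  obtain ⟨r13, hr13⟩ : ∃ r, r = S3 - S1 + (t3 - t1) * (L1 + L3) := ⟨_, rfl⟩
  obtain ⟨r23, hr23⟩ : ∃ r, r = S3 - S2 + (t3 - t2) * (L2 + L3) := ⟨_, rfl⟩
  obtain ⟨e, he⟩ : ∃ r, r = S1 - S0 - (t1 - t0) * L0 := ⟨_, rfl⟩
  rw [← hr02] at h02
  rw [← hr03] at h03
  rw [← hr12] at h12
  rw [← hr13] at h13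
  rw [← hr23] at h23
  rw [← he] at hn
  have hε : 0 ≤ ε := (abs_nonneg _).trans h02
  have key : 3 * (t1 - t0) * (t3 - t2) * L0 = -((t1 - t0) ^ 2 * (L3 - L2)) -
      (t1 - t0) * ((r23 - r03 + r02) - (r23 - r13 + r12)) - (t1 - t0) * (r23 - r03 + r02) +
      (t2 - t0) * ((r23 - r03 + r02) - (r23 - r13 + r12)) + (t3 - t2) * (r02 - r12 - e) := by
    rw [hr02, hr03, hr12, hr13, hr23, he]
    ring
  have e1 : |L0| * (3 * |t1 - t0| * |t3 - t2|) = |3 * (t1 - t0) * (t3 - t2) * L0| := by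
    rw [abs_mul, abs_mul, abs_mul, abs_of_pos (by norm_num : (0 : ℝ) < 3)]
    ring
  rw [e1, key]
  have b1 : |(r23 - r03 + r02) - (r23 - r13 + r12)| ≤ 4 * ε := by
    have : (r23 - r03 + r02) - (r23 - r13 + r12) = r02 - r03 - r12 + r13 := by ring
    rw [this]
    rw [abs_le] at h02 h03 h12 h13 ⊢
    constructor <;> linarith [h02.1, h02.2, h03.1, h03.2, h12.1, h12.2, h13.1, h13.2]
  have b2 : |r23 - r03 + r02| ≤ 3 * ε := by
    rw [abs_le] at h02 h03 h23 ⊢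
    constructor <;> linarith [h02.1, h02.2, h03.1, h03.2, h23.1, h23.2]
  have b3 : |r02 - r12 - e| ≤ 2 * ε + ε₁ := by
    rw [abs_le] at h02 h12 hn ⊢
    constructor <;> linarith [h02.1, h02.2, h12.1, h12.2, hn.1, hn.2]
  have c0 : |(t1 - t0) ^ 2 * (L3 - L2)| ≤ 2 * M * (t1 - t0) ^ 2 := by
    rw [abs_mul, abs_of_nonneg (sq_nonneg (t1 - t0)), mul_comm]
    refine mul_le_mul_of_nonneg_right ?_ (sq_nonneg _)
    exact (abs_sub _ _).trans (by linarith)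
  have mul1 : ∀ {a b x : ℝ}, |a| ≤ 1 → |b| ≤ x → |a * b| ≤ x := by
    intro a b x ha hb
    rw [abs_mul]
    have := mul_le_mul ha hb (abs_nonneg _) zero_le_one
    linarith
  have c1 := mul1 ht1 b1
  have c2 := mul1 ht1 b2
  have c3 := mul1 ht2 b1
  have c4 := mul1 ht3 b3
  rw [abs_le] at c0 c1 c2 c3 c4 ⊢
  constructor <;> linarith [c0.1, c0.2, c1.1, c1.2, c2.1, c2.2, c3.1, c3.2, c4.1, c4.2]

/-- The product of a covector with the direction `(1, E)` of the fan. -/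
def dt (v : Fin 2 → ℝ) (E : ℝ) : ℝ := v 0 + v 1 * E

/-- The vector `D` of (D). -/
def dD (S L : Fin 4 → Fin 2 → ℝ) (t : Fin 4 → ℝ) (a b : Fin 4) (i : Fin 2) : ℝ :=
  S b i - S a i + (t b - t a) * (L a i + L b i)

/-- (D): the mates at both ends. -/
theorem dD_le {S L : Fin 4 → Fin 2 → ℝ} {t E : Fin 4 → ℝ} {κ ε ε' : ℝ} (a b : Fin 4)
    (hκ : 0 < κ) (hκ1 : κ ≤ 1) (hE1 : |E a| ≤ 1) (hE : κ ≤ |E a - E b|) (ht : |t b - t a| ≤ 1)
    (h1 : |dt (fun i => S b i - S a i + (t b - t a) * L a i) (E b)| ≤ ε)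
    (h2 : |dt (fun i => S b i - S a i + (t b - t a) * L b i) (E a)| ≤ ε)
    (h3 : |dt (L a) (E a)| ≤ ε') (h4 : |dt (L b) (E b)| ≤ ε') (i : Fin 2) :
    |dD S L t a b i| ≤ 3 * (ε + ε') / κ := by
  have hε : 0 ≤ ε := (abs_nonneg _).trans h1
  have hε' : 0 ≤ ε' := (abs_nonneg _).trans h3
  have e1 : dD S L t a b 0 + dD S L t a b 1 * E a =
      dt (fun i => S b i - S a i + (t b - t a) * L b i) (E a) + (t b - t a) * dt (L a) (E a) := by
    unfold dt dD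
    ring
  have e2 : dD S L t a b 0 + dD S L t a b 1 * E b =
      dt (fun i => S b i - S a i + (t b - t a) * L a i) (E b) + (t b - t a) * dt (L b) (E b) := by
    unfold dt dD
    ring
  have m1 : |(t b - t a) * dt (L a) (E a)| ≤ ε' := by
    rw [abs_mul]
    have := mul_le_mul ht h3 (abs_nonneg _) zero_le_one
    linarith
  have m2 : |(t b - t a) * dt (L b) (E b)| ≤ ε' := by
    rw [abs_mul]
    have := mul_le_mul ht h4 (abs_nonneg _) zero_le_one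
    linarith
  have b1 : |dD S L t a b 0 + dD S L t a b 1 * E a| ≤ ε + ε' := by
    rw [e1]
    exact (abs_add_le _ _).trans (add_le_add h2 m1)
  have b2 : |dD S L t a b 0 + dD S L t a b 1 * E b| ≤ ε + ε' := by
    rw [e2]
    exact (abs_add_le _ _).trans (add_le_add h1 m2)
  obtain ⟨c1, c2⟩ := two_dir hκ hE hE1 b1 b2
  have c3 : ε + ε' ≤ (ε + ε') / κ := by
    rw [le_div_iff₀ hκ]
    nlinarith
  have c4 : 3 * (ε + ε') / κ = (ε + ε') / κ + 2 * (ε + ε') / κ := by ring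
  have c5 : 0 ≤ (ε + ε') / κ := by positivity
  fin_cases i
  · show |dD S L t a b 0| ≤ _
    linarith
  · show |dD S L t a b 1| ≤ _
    linarith

/-- Section 5 of OCS for a typical tuple of times: `0`, `1` near, the other pairs coarse. -/
theorem ocs_alg {S L : Fin 4 → Fin 2 → ℝ} {t E : Fin 4 → ℝ} {κ ε ε' ε₁ M : ℝ}
    (hκ : 0 < κ) (hκ1 : κ ≤ 1) (hE1 : ∀ a, |E a| ≤ 1) (ht : ∀ a b, |t b - t a| ≤ 1)
    (hE : ∀ a b : Fin 4, a < b → ¬ (a = 0 ∧ b = 1) → κ ≤ |E a - E b|)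
    (h1 : ∀ a b : Fin 4, a < b → ¬ (a = 0 ∧ b = 1) →
      |dt (fun i => S b i - S a i + (t b - t a) * L a i) (E b)| ≤ ε)
    (h2 : ∀ a b : Fin 4, a < b → ¬ (a = 0 ∧ b = 1) →
      |dt (fun i => S b i - S a i + (t b - t a) * L b i) (E a)| ≤ ε)
    (h3 : ∀ a, |dt (L a) (E a)| ≤ ε') (hM : ∀ a i, |L a i| ≤ M)
    (hn : ∀ i, |S 1 i - S 0 i - (t 1 - t 0) * L 0 i| ≤ ε₁) (i : Fin 2) :
    |L 0 i| * (3 * |t 1 - t 0| * |t 3 - t 2|) ≤
      2 * M * (t 1 - t 0) ^ 2 + 51 * (ε + ε') / κ + ε₁ := by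
  have hD : ∀ a b : Fin 4, a < b → ¬ (a = 0 ∧ b = 1) → |dD S L t a b i| ≤ 3 * (ε + ε') / κ :=
    fun a b hab hab' => dD_le a b hκ hκ1 (hE1 a) (hE a b hab hab') (ht a b) (h1 a b hab hab')
      (h2 a b hab hab') (h3 a) (h3 b) i
  have := alg (hD 0 2 (by decide) (by decide)) (hD 0 3 (by decide) (by decide))
    (hD 1 2 (by decide) (by decide)) (hD 1 3 (by decide) (by decide))
    (hD 2 3 (by decide) (by decide)) (hn i) (hM 2 i) (hM 3 i) (ht 0 1) (ht 0 2) (ht 2 3)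
  have e : 17 * (3 * (ε + ε') / κ) = 51 * (ε + ε') / κ := by ring
  rw [e] at this
  exact this

end Pool.OCS
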